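import Pool.Agent.H28.GN.T3
import Pool.Agent.H28.GN.T4

/-!
Theorem G, rows BRG MNX AVQ.
-/

set_option autoImplicit false

open MeasureTheory ProbabilityTheory Filter Topology Finset
open scoped Nat ENNReal

namespace Pool.Agent.H45.GNG

open Pool.Agent.H28.GN
open Pool.Agent.H28.LF (lt Um SS LX Xi shX wX)

theorem pf_BRG (hW : T_BRW) : T_BRG := by
  intro u c J H K n hu hH hK
  refine hW u c J H K (wN n) (fz u) (n : ℤ) hu hH hK ?_ ?_
  · intro m
    unfold fz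
    rw [norm_prod]
    exact Finset.prod_eq_one fun i _ => hu _
  · intro i
    unfold fz wN
    have h1 : ((n : ℤ) + i + 1).toNat = n + i + 1 := by omega
    have h2 : ((n : ℤ) + i).toNat = n + i := by omega
    rw [h1, h2, Finset.prod_range_succ]

theorem shXi (L : ℕ) (ξ : Xi) (t : ℤ) : (shX^[L] ξ) t = ξ (t + L) := by
  induction L generalizing ξ t with
  | zero => simp
  | succ L ih =>
    rw [Function.iterate_succ_apply, ih]
    change ξ (t + L + 1) = _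
    congr 1
    push_cast
    ring

theorem wX_sh (s : ℕ) (ξ : Xi) : (fun i => wX ξ (i + s)) = wX (shX^[s] ξ) := by
  funext i
  unfold wX
  rw [shXi]
  congr 2
  push_cast
  ring

theorem int_DG (hB : T_BDG) {u : Bool × Bool → ℂ} (c J : ℕ) {ν : Measure Xi}
    [IsProbabilityMeasure ν] (hu : ∀ b, ‖u b‖ = 1) {H K : ℕ} (hH : 0 < H) (hK : 0 < K) :
    Integrable (fun ξ : Xi => DG u c J H K (wX ξ)) ν := by
  obtain ⟨hb, _, hcont, _⟩ := hB u c J H K hu hH hK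
  refine Integrable.of_bound (C := 1) hcont.measurable.aestronglyMeasurable ?_
  refine Eventually.of_forall fun ξ => ?_
  rw [Real.norm_eq_abs, abs_of_nonneg (hb _).1]
  exact (hb _).2

theorem int_sh (hB : T_BDG) {u : Bool × Bool → ℂ} (c J : ℕ) {ν : Measure Xi}
    [IsProbabilityMeasure ν] (hu : ∀ b, ‖u b‖ = 1) (hT : MeasurePreserving shX ν ν) {H K : ℕ}
    (hH : 0 < H) (hK : 0 < K) (s : ℕ) :
    Integrable (fun ξ : Xi => DG u c J H K (fun i => wX ξ (i + s))) ν ∧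
    ∫ ξ, DG u c J H K (fun i => wX ξ (i + s)) ∂ν = ∫ ξ, DG u c J H K (wX ξ) ∂ν := by
  have hp : MeasurePreserving (shX^[s]) ν ν := hT.iterate s
  have hi := int_DG hB c J (ν := ν) hu hH hK
  have e1 : (fun ξ : Xi => DG u c J H K (fun i => wX ξ (i + s))) =
      (fun ξ : Xi => DG u c J H K (wX ξ)) ∘ (shX^[s]) := by
    funext ξ
    rw [Function.comp_apply, wX_sh]
  rw [e1]
  refine ⟨hp.integrable_comp_of_integrable hi, ?_⟩
  have h2 := integral_map (μ := ν) hp.measurable.aemeasurable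
    (f := fun ξ : Xi => DG u c J H K (wX ξ)) (by rw [hp.map_eq]; exact hi.aestronglyMeasurable)
  rw [hp.map_eq] at h2
  exact h2.symm

theorem pf_MNX (h1 : T_MN1) (h2 : T_MN2) (hB : T_BDG) : T_MNX := by
  intro u c J H K M ν hu hν hT hH hK hM
  have hM0 : (0 : ℝ) < M := by exact_mod_cast hM
  constructor
  · have hb : ∀ ξ : Xi, DG u c J (M * H) K (wX ξ) ≤
        (∑ b ∈ Fintype.piFinset (fun _ : Fin J => range M),
          DG u c J H K (fun i => wX ξ (i + c * (H * ∑ j, b j)))) / (M : ℝ) ^ J := fun ξ =>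
      h1 u c J H K M (wX ξ) hu hH hK hM
    have hi1 := int_DG hB c J (ν := ν) hu (Nat.mul_pos hM hH) hK
    have hi2 : Integrable (fun ξ : Xi => (∑ b ∈ Fintype.piFinset (fun _ : Fin J => range M),
        DG u c J H K (fun i => wX ξ (i + c * (H * ∑ j, b j)))) / (M : ℝ) ^ J) ν :=
      (integrable_finsetSum _ fun b _ => (int_sh hB c J hu hT hH hK _).1).div_const _
    refine (integral_mono hi1 hi2 hb).trans (le_of_eq ?_)
    rw [integral_div, integral_finsetSum _ fun b _ => (int_sh hB c J hu hT hH hK _).1,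
      Finset.sum_congr rfl fun b _ => (int_sh hB c J hu hT hH hK _).2, Finset.sum_const,
      Fintype.card_piFinset, nsmul_eq_mul]
    simp only [Finset.card_range, Finset.prod_const, Finset.card_univ, Fintype.card_fin]
    push_cast
    rw [mul_comm, mul_div_assoc, div_self (by positivity), mul_one]
  · have hb : ∀ ξ : Xi, DG u c J H (M * K) (wX ξ) ≤
        (∑ b ∈ range M, DG u c J H K (fun i => wX ξ (i + K * b))) / M := fun ξ =>
      h2 u c J H K M (wX ξ) hu hH hK hM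
    have hi1 := int_DG hB c J (ν := ν) hu hH (Nat.mul_pos hM hK)
    have hi2 : Integrable (fun ξ : Xi =>
        (∑ b ∈ range M, DG u c J H K (fun i => wX ξ (i + K * b))) / (M : ℝ)) ν :=
      (integrable_finsetSum _ fun b _ => (int_sh hB c J hu hT hH hK _).1).div_const _
    refine (integral_mono hi1 hi2 hb).trans (le_of_eq ?_)
    rw [integral_div, integral_finsetSum _ fun b _ => (int_sh hB c J hu hT hH hK _).1,
      Finset.sum_congr rfl fun b _ => (int_sh hB c J hu hT hH hK _).2, Finset.sum_const,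
      Finset.card_range, nsmul_eq_mul, mul_comm, mul_div_assoc, div_self hM0.ne', mul_one]

theorem norm_st {J : ℕ} {u : Bool × Bool → ℂ} (hu : ∀ b, ‖u b‖ = 1)
    (w : (Fin J → Bool) → ℕ → Bool × Bool) (i : ℕ) : ‖st u w i‖ = 1 := by
  unfold st
  rw [norm_prod]
  refine Finset.prod_eq_one fun ω _ => ?_
  unfold cv
  split_ifs
  · exact hu _
  · rw [RCLike.norm_conj]; exact hu _

theorem norm_Pr' {J : ℕ} {u : Bool × Bool → ℂ} (hu : ∀ b, ‖u b‖ = 1)
    (w : (Fin J → Bool) → ℕ → Bool × Bool) (l k : ℕ) : ‖Pr u w l k‖ = 1 := by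
  unfold Pr
  rw [norm_prod]
  exact Finset.prod_eq_one fun i _ => norm_st hu w _

theorem norm_mm' {J : ℕ} {u : Bool × Bool → ℂ} (hu : ∀ b, ‖u b‖ = 1) (K : ℕ)
    (w : (Fin J → Bool) → ℕ → Bool × Bool) (l : ℕ) : ‖mm u K w l‖ ≤ 1 := by
  unfold mm
  rw [norm_div, Complex.norm_natCast]
  refine div_le_one_of_le₀ ?_ (Nat.cast_nonneg K)
  refine (norm_sum_le _ _).trans ?_
  rw [Finset.sum_congr rfl fun k _ => norm_Pr' hu w l (k + 1)]
  simp

theorem cont_mm {J : ℕ} (u : Bool × Bool → ℂ) (c K : ℕ) (t : Fin J → Bool → ℕ) :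
    Continuous fun ξ : Xi => mm u K (bl c t (wX ξ)) 0 := by
  unfold mm
  refine Continuous.div_const ?_ _
  refine continuous_finsetSum _ fun k _ => ?_
  unfold Pr
  refine continuous_finsetProd _ fun i _ => ?_
  unfold st
  refine continuous_finsetProd _ fun ω _ => ?_
  have h1 : Continuous fun ξ : Xi => u (bl c t (wX ξ) ω (0 + i)) := by
    unfold bl wX
    exact continuous_of_discreteTopology.comp (continuous_fst.comp (continuous_apply _))
  unfold cv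
  split_ifs
  · exact h1
  · exact Complex.continuous_conj.comp h1

theorem int_mm {J : ℕ} {u : Bool × Bool → ℂ} (hu : ∀ b, ‖u b‖ = 1) (c K : ℕ)
    (t : Fin J → Bool → ℕ) (ν : Measure Xi) [IsProbabilityMeasure ν] :
    Integrable (fun ξ : Xi => ‖mm u K (bl c t (wX ξ)) 0‖ ^ 2) ν ∧
    0 ≤ ∫ ξ, ‖mm u K (bl c t (wX ξ)) 0‖ ^ 2 ∂ν ∧ ∫ ξ, ‖mm u K (bl c t (wX ξ)) 0‖ ^ 2 ∂ν ≤ 1 := by
  have hb : ∀ ξ : Xi, ‖mm u K (bl c t (wX ξ)) 0‖ ^ 2 ≤ 1 := fun ξ =>
    pow_le_one₀ (norm_nonneg _) (norm_mm' hu K _ 0)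
  have hi : Integrable (fun ξ : Xi => ‖mm u K (bl c t (wX ξ)) 0‖ ^ 2) ν := by
    refine Integrable.of_bound (C := 1)
      ((cont_mm u c K t).norm.pow 2).measurable.aestronglyMeasurable ?_
    refine Eventually.of_forall fun ξ => ?_
    rw [Real.norm_eq_abs, abs_of_nonneg (by positivity)]
    exact hb ξ
  refine ⟨hi, integral_nonneg fun ξ => by positivity, ?_⟩
  refine (integral_mono hi (integrable_const (1 : ℝ)) hb).trans ?_
  simp

theorem sum_mm {J : ℕ} {u : Bool × Bool → ℂ} (hu : ∀ b, ‖u b‖ = 1) (c H K : ℕ) (hH : 0 < H)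
    (ν : Measure Xi) [IsProbabilityMeasure ν] :
    ∑ t ∈ Bx J H, ∫ ξ, ‖mm u K (bl c t (wX ξ)) 0‖ ^ 2 ∂ν =
      ((H : ℝ) ^ (2 * J)) * ∫ ξ, DG u c J H K (wX ξ) ∂ν := by
  have hH0 : (0 : ℝ) < (H : ℝ) ^ (2 * J) := by
    have : (0 : ℝ) < H := by exact_mod_cast hH
    positivity
  unfold DG
  rw [integral_div, mul_div_cancel₀ _ hH0.ne', integral_finsetSum]
  exact fun t _ => (int_mm hu c K t ν).1

theorem pf_AVQ (hM : T_MNX) (hE : T_MEG) (hB : T_BDG) : T_AVQ := by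
  intro u c J s ν hu hν hT
  have hmp : MeasurePreserving shX ν ν := hT.toMeasurePreserving
  have hlim : ∀ t : Fin J → Bool → ℕ, Tendsto (fun K : ℕ =>
      ∫ ξ, ‖mm u K (bl c t (wX ξ)) 0‖ ^ 2 ∂ν) atTop (𝓝 (qT u c t ν)) := fun t =>
    (hE J u c t ν hu hν hT).1
  have h2p : ∀ r : ℕ, 0 < 2 ^ r := fun r => Nat.pow_pos (by norm_num)
  have hlim2 : Tendsto (fun s' : ℕ => ((2 : ℝ) ^ s) ^ (2 * J) *
      ∫ ξ, DG u c J (2 ^ s) (2 ^ s') (wX ξ) ∂ν) atTop
      (𝓝 (∑ t ∈ Bx J (2 ^ s), qT u c t ν)) := by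
    have h1 : Tendsto (fun s' : ℕ => ∑ t ∈ Bx J (2 ^ s),
        ∫ ξ, ‖mm u (2 ^ s') (bl c t (wX ξ)) 0‖ ^ 2 ∂ν) atTop
        (𝓝 (∑ t ∈ Bx J (2 ^ s), qT u c t ν)) := by
      refine tendsto_finsetSum _ fun t _ => ?_
      exact (hlim t).comp (tendsto_pow_atTop_atTop_of_one_lt (by norm_num : 1 < 2))
    refine h1.congr fun s' => ?_
    rw [sum_mm hu c (2 ^ s) (2 ^ s') (h2p s) ν]
    push_cast
    rfl
  have hmono : ∀ s', s ≤ s' → ∫ ξ, DX u c J s' ξ ∂ν ≤
      ∫ ξ, DG u c J (2 ^ s) (2 ^ s') (wX ξ) ∂ν := by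
    intro s' hs'
    have h1 := (hM u c J (2 ^ s) (2 ^ s') (2 ^ (s' - s)) ν hu hν hmp (h2p _) (h2p _) (h2p _)).1
    rw [← pow_add, Nat.sub_add_cancel hs'] at h1
    exact h1
  have hpos : (0 : ℝ) ≤ ((2 : ℝ) ^ s) ^ (2 * J) := by positivity
  refine ⟨?_, ?_, ?_⟩
  · intro t
    exact ⟨ge_of_tendsto' (hlim t) fun K => (int_mm hu c K t ν).2.1,
      le_of_tendsto' (hlim t) fun K => (int_mm hu c K t ν).2.2⟩
  · intro ε hε
    refine ge_of_tendsto hlim2 ?_
    filter_upwards [eventually_ge_atTop s] with s' hs'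
    rw [mul_comm]
    exact mul_le_mul_of_nonneg_left ((hε s').trans (hmono s' hs')) hpos
  · intro δ k hk hδ
    rw [Finset.sum_sub_distrib, sum_mm hu c (2 ^ s) (2 ^ k) (h2p s) ν]
    have h1 : ∫ ξ, DG u c J (2 ^ s) (2 ^ k) (wX ξ) ∂ν ≤ ∫ ξ, DX u c J k ξ ∂ν := by
      have h2 := (hM u c J (2 ^ k) (2 ^ k) (2 ^ (s - k)) ν hu hν hmp (h2p _) (h2p _) (h2p _)).1
      rw [← pow_add, Nat.sub_add_cancel hk] at h2
      exact h2
    have h3 : ((2 : ℝ) ^ s) ^ (2 * J) * (∫ ξ, DX u c J k ξ ∂ν - δ) ≤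
        ∑ t ∈ Bx J (2 ^ s), qT u c t ν := by
      refine ge_of_tendsto hlim2 ?_
      filter_upwards [eventually_ge_atTop s] with s' hs'
      refine mul_le_mul_of_nonneg_left ?_ hpos
      have h4 := hδ s' (hk.trans hs')
      have h5 := hmono s' hs'
      linarith
    have h6 : (((2 ^ s : ℕ) : ℝ) ^ (2 * J)) * ∫ ξ, DG u c J (2 ^ s) (2 ^ k) (wX ξ) ∂ν ≤
        ((2 : ℝ) ^ s) ^ (2 * J) * ∫ ξ, DX u c J k ξ ∂ν := by
      push_cast
      exact mul_le_mul_of_nonneg_left h1 hpos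
    linarith [mul_sub (((2 : ℝ) ^ s) ^ (2 * J)) (∫ ξ, DX u c J k ξ ∂ν) δ, mul_comm δ (((2 : ℝ) ^ s) ^ (2 * J))]

end Pool.Agent.H45.GNG
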