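import Pool.Agent.H28.GN.T1
import Pool.Agent.H56.LF.LAB

/-!
Theorem G, rows LGB LPP CPG SM1.
-/

set_option autoImplicit false

open MeasureTheory ProbabilityTheory Filter Topology Finset
open scoped Nat ENNReal

namespace Pool.Agent.H45.GNG

open Pool.Agent.H28.GN
open Pool.Agent.H24.T2 (Pset)
open Pool.Agent.H67.AG (avgP ul Inv Rt Av SA kap JJ TT InvZ nxt triv tow XN PN TN XX PX TX prX Fac)
open Pool.Agent.H28.LF (Wd La Cd dm ds)
open Pool.Agent.H56.LF.LAB (avg_add avg_mono avg_const avg_nonneg avg_le avg_bdd)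

theorem pf_LGB (hB : Pool.Agent.H28.LF.T_LAB) (hF : Pool.Agent.H28.LF.T_LAF) : T_LGB := by
  constructor
  · intro Ω _ P _ T U q R Pt _ _ s Bad a A hT hU hs ha hA
    have hcard : (0 : ℝ) < Fintype.card Pt := by exact_mod_cast Fintype.card_pos
    have key := fun t => hB Ω P T U (s t) q R (Bad t) a a A hT hU (hs t) ha ha hA
    refine ⟨?_, ?_, ?_⟩
    · exact div_nonneg (Finset.sum_nonneg fun t _ => (key t).1) hcard.le
    · unfold LaG
      rw [div_le_one hcard]
      calc ∑ t, La U (s t) P T a (Bad t) A ≤ ∑ _t : Pt, (1 : ℝ) :=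
            Finset.sum_le_sum fun t _ => (key t).2.1.trans (key t).2.2.1
        _ = Fintype.card Pt := by simp
    · intro B hBm hd
      unfold LaG
      rw [← add_div, ← Finset.sum_add_distrib]
      congr 1
      exact Finset.sum_congr rfl fun t _ => (key t).2.2.2.1 B hBm hd
  · intro Ω Ω' _ _ P _ P' _ T T' g U q R Pt _ s Bad a hg ha
    unfold LaG
    congr 1
    exact Finset.sum_congr rfl fun t _ => hF Ω Ω' P P' T T' g U (s t) q R (Bad t) a hg ha

theorem lpp_one (hU : Pool.Agent.H67.AG.T_UL) (U : Ultrafilter ℕ) (q R : ℕ) (ι : Type)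
    [Fintype ι] (s : ℕ → ℝ) (pos : ι → Fin R) (B : ℕ → Set (ι → Fin q))
    (hs : ∀ p, s p = 0 ∨ s p = 1) (Ω : Type) [MeasurableSpace Ω] (P : Measure Ω)
    [IsProbabilityMeasure P] (T : Ω ≃ᵐ Ω) (a a' : Ω → Fin q) (A : Set Ω)
    (hT : MeasurePreserving T P P) (ha : Measurable a) (ha' : Measurable a')
    (hA : MeasurableSet[Inv T 1] A) :
    La U s P T a (fun p => Lft pos (B p)) A ≤ La U s P T a' (fun p => Lft pos (B p)) A +
      Fintype.card ι * P.real (A ∩ {ω | a ω ≠ a' ω}) := by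
  obtain ⟨_, umono, uadd, _, uconst⟩ := hU U
  have hs0 : ∀ p, 0 ≤ s p := fun p => by rcases hs p with h | h <;> rw [h] <;> norm_num
  have hs1 : ∀ p, s p ≤ 1 := fun p => by rcases hs p with h | h <;> rw [h] <;> norm_num
  have hAm : MeasurableSet A := hA.1
  have hAi : T ⁻¹' A = A := by simpa using hA.2
  have hTm : ∀ n : ℕ, Measurable (T^[n]) := fun n => T.measurable.iterate n
  have hTp : ∀ n : ℕ, MeasurePreserving (T^[n]) P P := fun n => hT.iterate n
  have hAn : ∀ n : ℕ, T^[n] ⁻¹' A = A := by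
    intro n
    induction n with
    | zero => rfl
    | succ n ih => rw [Function.iterate_succ, Set.preimage_comp, ih, hAi]
  have v0 : ∀ (b : Ω → Fin q) (B' : Set Ω) (p : ℕ),
      0 ≤ s p * P.real (B' ∩ {ω | Wd T b R p ω ∈ Lft pos (B p)}) := fun b B' p =>
    mul_nonneg (hs0 p) measureReal_nonneg
  have v1 : ∀ (b : Ω → Fin q) (B' : Set Ω) (p : ℕ),
      s p * P.real (B' ∩ {ω | Wd T b R p ω ∈ Lft pos (B p)}) ≤ s p := fun b B' p =>
    mul_le_of_le_one_right (hs0 p) measureReal_le_one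
  have vb : ∀ (b : Ω → Fin q) (B' : Set Ω), ∃ C, ∀ m,
      |avgP 2 m (fun p => s p * P.real (B' ∩ {ω | Wd T b R p ω ∈ Lft pos (B p)}))| ≤ C :=
    fun b B' => avg_bdd _ 1 (v0 b B') fun p => (v1 b B' p).trans (hs1 p)
  have cb : ∀ c : ℝ, ∃ C, ∀ _ : ℕ, |c| ≤ C := fun c => ⟨|c|, fun _ => le_rfl⟩
  set c : ℝ := Fintype.card ι * P.real (A ∩ {ω | a ω ≠ a' ω}) with hc
  have hc0 : 0 ≤ c := by positivity
  have hD : MeasurableSet {ω | a ω ≠ a' ω} := (measurableSet_eq_fun ha ha').compl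
  have key : ∀ p, s p * P.real (A ∩ {ω | Wd T a R p ω ∈ Lft pos (B p)}) ≤
      s p * P.real (A ∩ {ω | Wd T a' R p ω ∈ Lft pos (B p)}) + c := by
    intro p
    have hsub : A ∩ {ω | Wd T a R p ω ∈ Lft pos (B p)} ⊆
        (A ∩ {ω | Wd T a' R p ω ∈ Lft pos (B p)}) ∪
          ⋃ i : ι, T^[p * ((pos i : ℕ) + 1)] ⁻¹' (A ∩ {ω | a ω ≠ a' ω}) := by
      rintro ω ⟨h1, h2⟩
      by_cases h : (fun i => Wd T a R p ω (pos i)) = fun i => Wd T a' R p ω (pos i)
      · left
        refine ⟨h1, ?_⟩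
        have h3 : (fun i => Wd T a R p ω (pos i)) ∈ B p := h2
        have h4 : (fun i => Wd T a' R p ω (pos i)) ∈ B p := by rw [← h]; exact h3
        exact h4
      · right
        obtain ⟨i, hi⟩ := Function.ne_iff.1 h
        refine Set.mem_iUnion.2 ⟨i, ?_, hi⟩
        have : ω ∈ T^[p * ((pos i : ℕ) + 1)] ⁻¹' A := by rw [hAn]; exact h1
        exact this
    have h1 : P.real (A ∩ {ω | Wd T a R p ω ∈ Lft pos (B p)}) ≤
        P.real (A ∩ {ω | Wd T a' R p ω ∈ Lft pos (B p)}) + c := by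
      refine (measureReal_mono hsub).trans ((measureReal_union_le _ _).trans ?_)
      gcongr
      refine (measureReal_iUnion_fintype_le _).trans ?_
      rw [hc]
      refine le_of_eq ?_
      rw [Finset.sum_congr rfl fun i _ => ?_, Finset.sum_const, Finset.card_univ, nsmul_eq_mul]
      exact (hTp _).measureReal_preimage (hAm.inter hD).nullMeasurableSet
    calc s p * P.real (A ∩ {ω | Wd T a R p ω ∈ Lft pos (B p)})
        ≤ s p * (P.real (A ∩ {ω | Wd T a' R p ω ∈ Lft pos (B p)}) + c) :=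
          mul_le_mul_of_nonneg_left h1 (hs0 p)
      _ = s p * P.real (A ∩ {ω | Wd T a' R p ω ∈ Lft pos (B p)}) + s p * c := by ring
      _ ≤ s p * P.real (A ∩ {ω | Wd T a' R p ω ∈ Lft pos (B p)}) + c := by
          gcongr
          exact mul_le_of_le_one_left hc0 (hs1 p)
  unfold La
  have e := uadd _ (fun _ => c) (vb a' A) (cb c)
  rw [uconst] at e
  rw [← e]
  refine umono _ _ (vb a A) ?_ (Eventually.of_forall fun m => ?_)
  · obtain ⟨C, hC⟩ := vb a' A
    exact ⟨C + |c|, fun m => (abs_add_le _ _).trans (by have := hC m; gcongr)⟩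
  · refine (avg_mono m _ _ key).trans ?_
    rw [avg_add]
    gcongr
    exact avg_const m c hc0

theorem pf_LPP (hU : Pool.Agent.H67.AG.T_UL) : T_LPP := by
  intro U q R Pt ι _ _ _ s pos B _ hs
  intro Ω _ P _ T a a' A hT ha ha' hA
  have hcard : (0 : ℝ) < Fintype.card Pt := by exact_mod_cast Fintype.card_pos
  unfold LaG
  rw [div_le_iff₀ hcard, add_mul, div_mul_cancel₀ _ hcard.ne']
  calc ∑ t, La U (s t) P T a (Lft (pos t) ∘ B t) A
      ≤ ∑ t, (La U (s t) P T a' (fun p => Lft (pos t) (B t p)) A +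
        Fintype.card ι * P.real (A ∩ {ω | a ω ≠ a' ω})) :=
        Finset.sum_le_sum fun t _ =>
          lpp_one hU U q R ι (s t) (pos t) (B t) (hs t) Ω P T a a' A hT ha ha' hA
    _ = _ := by
        rw [Finset.sum_add_distrib, Finset.sum_const, Finset.card_univ, nsmul_eq_mul]
        ring

theorem pf_CPG (h : Pool.Agent.H83.V.T_CPV) : T_CPG := by
  intro q ι _ _ I w th B _ hc h0 h1 hw hw1
  set e := Fintype.equivFin ι with he
  letI : DecidablePred (· ∈ {v : Fin (Fintype.card ι) → Fin q | (fun i => v (e i)) ∈ B}) :=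
    fun v => inferInstanceAs (Decidable ((fun i => v (e i)) ∈ B))
  have key := h q (Fintype.card ι) (I.map e.toEmbedding) (fun i => w (e.symm i)) th
    {v | (fun i => v (e i)) ∈ B} ?_ h0 h1 (fun i b => hw _ b) (fun i => hw1 _)
  · rw [Finset.sum_map, Finset.sum_map] at key
    have e1 : ∀ i : ι, ∑ j ∈ univ.erase (e i),
        (th * (1 - ∑ b, w (e.symm (e i)) b ^ 2)) * (th * (1 - ∑ b, w (e.symm j) b ^ 2)) =
        ∑ j ∈ univ.erase i,
        (th * (1 - ∑ b, w i b ^ 2)) * (th * (1 - ∑ b, w j b ^ 2)) := by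
      intro i
      have h2 : (univ.erase (e i) : Finset (Fin (Fintype.card ι))) =
          (univ.erase i : Finset ι).map e.toEmbedding := by
        rw [Finset.map_erase, Finset.map_univ_equiv]
        rfl
      rw [h2, Finset.sum_map]
      simp only [Equiv.coe_toEmbedding, Equiv.symm_apply_apply]
    have e2 : (∑ v : Fin (Fintype.card ι) → Fin q,
        if v ∈ {v : Fin (Fintype.card ι) → Fin q | (fun i => v (e i)) ∈ B} then
          ∏ i, w (e.symm i) (v i) else 0) =
        ∑ v : ι → Fin q, if v ∈ B then ∏ i, w i (v i) else 0 := by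
      rw [← (Equiv.arrowCongr e (Equiv.refl (Fin q))).sum_comp]
      refine Finset.sum_congr rfl fun v _ => ?_
      have h3 : ((Equiv.arrowCongr e (Equiv.refl (Fin q))) v ∈
          {v : Fin (Fintype.card ι) → Fin q | (fun i => v (e i)) ∈ B}) ↔ v ∈ B := by
        rw [Set.mem_setOf_eq]
        have h4 : (fun i => ((Equiv.arrowCongr e (Equiv.refl (Fin q))) v) (e i)) = v := by
          funext i
          simp [Equiv.arrowCongr]
        rw [h4]
      have h5 : ∏ i, w (e.symm i) (((Equiv.arrowCongr e (Equiv.refl (Fin q))) v) i) =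
          ∏ i, w i (v i) := by
        rw [← e.symm.prod_comp (fun i => w i (v i))]
        refine Finset.prod_congr rfl fun i _ => ?_
        simp [Equiv.arrowCongr]
      by_cases hv : v ∈ B
      · rw [if_pos (h3.2 hv), if_pos hv, h5]
      · rw [if_neg (fun h6 => hv (h3.1 h6)), if_neg hv]
    simp only [Equiv.coe_toEmbedding] at key
    rw [Finset.sum_congr rfl fun i _ => e1 i, e2] at key
    simp only [Equiv.symm_apply_apply] at key
    exact key
  · intro v v' hv hv' i hi hne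
    obtain ⟨i0, hi0, rfl⟩ := Finset.mem_map.1 hi
    obtain ⟨j, hj, hne'⟩ := hc (fun i => v (e i)) (fun i => v' (e i)) hv hv' i0 hi0 hne
    exact ⟨e j, fun h6 => hj (e.injective h6), hne'⟩

theorem sm1_num {D : ℕ} {u S Im If : ℝ} (hD : 0 < D) (u0 : 0 ≤ u) (If0 : 0 ≤ If)
    (hIm : Im ≤ 2 * u * If)
    (h : (1 / Real.sqrt D - 1 / Real.sqrt ((D : ℝ) + ((3 * D : ℕ) : ℝ))) * (2 * S) ≤
      4 * Real.sqrt ((3 * D : ℕ) : ℝ) * Im + 1 / Real.sqrt ((3 * D : ℕ) : ℝ) * If) :
    S ≤ (14 * D * u + 1) * If := by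
  have D0 : (0 : ℝ) < D := by exact_mod_cast hD
  obtain ⟨s, hs⟩ : ∃ s, s = Real.sqrt D := ⟨_, rfl⟩
  obtain ⟨r, hr⟩ : ∃ r, r = Real.sqrt 3 := ⟨_, rfl⟩
  have s0 : 0 < s := by rw [hs]; exact Real.sqrt_pos.2 D0
  have ss : s * s = D := by rw [hs]; exact Real.mul_self_sqrt D0.le
  have r0 : 0 < r := by rw [hr]; exact Real.sqrt_pos.2 (by norm_num)
  have rr : r * r = 3 := by rw [hr]; exact Real.mul_self_sqrt (by norm_num)
  have r1 : 1 ≤ r := by nlinarith
  have r2 : r ≤ 7 / 4 := by nlinarith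
  have hA : Real.sqrt ((3 * D : ℕ) : ℝ) = r * s := by
    push_cast
    rw [Real.sqrt_mul (by norm_num), ← hs, ← hr]
  have hB : Real.sqrt ((D : ℝ) + ((3 * D : ℕ) : ℝ)) = 2 * s := by
    have h1 : (D : ℝ) + ((3 * D : ℕ) : ℝ) = (2 * s) ^ 2 := by
      push_cast
      rw [← ss]
      ring
    rw [h1]
    exact Real.sqrt_sq (by positivity)
  rw [hA, hB, ← hs] at h
  have h2 : (1 / s - 1 / (2 * s)) * (2 * S) = S / s := by
    field_simp
    ring
  rw [h2, div_le_iff₀ s0] at h
  have h3 : (4 * (r * s) * Im + 1 / (r * s) * If) * s = 4 * r * D * Im + If / r := by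
    rw [← ss]
    field_simp
  rw [h3] at h
  have h4 : 4 * r * D * Im ≤ 14 * D * u * If := by
    calc 4 * r * D * Im ≤ 4 * r * D * (2 * u * If) :=
          mul_le_mul_of_nonneg_left hIm (by positivity)
      _ = r * (8 * D * u * If) := by ring
      _ ≤ 7 / 4 * (8 * D * u * If) := mul_le_mul_of_nonneg_right r2 (by positivity)
      _ = 14 * D * u * If := by ring
  have h5 : If / r ≤ If := div_le_self If0 r1
  linarith

theorem pf_SM1 (hS : Pool.Agent.H28.LF.T_STX) : T_SM1 := by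
  intro Ω _ P _ T U f D u hT hU hf h01 hD u0 hm
  have hle : Inv T 1 ≤ (inferInstance : MeasurableSpace Ω) := MeasurableSpace.invariants_le _
  have hint : Integrable f P := by
    refine Integrable.of_bound (C := 1) hf.aestronglyMeasurable (Eventually.of_forall fun ω => ?_)
    rw [Real.norm_eq_abs, abs_of_nonneg (h01 ω).1]
    exact (h01 ω).2
  have If0 : 0 ≤ ∫ ω, f ω ∂P := integral_nonneg fun ω => (h01 ω).1
  have hn : 0 ≤ᵐ[P] P[f | Inv T 1] :=
    condExp_nonneg (Eventually.of_forall fun ω => (h01 ω).1)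
  have hIm : ∫ ω, ((P[f | Inv T 1]) ω) ^ 2 ∂P ≤ 2 * u * ∫ ω, f ω ∂P := by
    calc ∫ ω, ((P[f | Inv T 1]) ω) ^ 2 ∂P ≤ ∫ ω, 2 * u * (P[f | Inv T 1]) ω ∂P := by
          refine integral_mono_of_nonneg (Eventually.of_forall fun ω => sq_nonneg _)
            (integrable_condExp.const_mul _) ?_
          filter_upwards [hn, hm] with ω a b
          have a' : 0 ≤ (P[f | Inv T 1]) ω := a
          show ((P[f | Inv T 1]) ω) ^ 2 ≤ 2 * u * (P[f | Inv T 1]) ω
          rw [sq]
          exact mul_le_mul_of_nonneg_right b a'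
      _ = 2 * u * ∫ ω, f ω ∂P := by
          rw [integral_const_mul, integral_condExp hle]
  exact sm1_num hD u0 If0 hIm (hS Ω P T U f D (3 * D) hT hU hf h01 hD (by omega))

end Pool.Agent.H45.GNG
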